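import Pool.Agent.helper59.GF.Spec

/-! Row gf:UNQ (helper17) -/

set_option autoImplicit false

namespace Pool.Agent.GF

theorem UNQ_comb (p : ℕ) (s : Fin (p + 2) → ℝ) (ν : Fin (p + 2) → ℝ) (h0 : ∑ r, ν r = 0)
    (h1 : ∀ q : Fin p, ∑ r, ν r * Yl p (s r) q = 0) (a0 : ℝ) (a : Fin p → ℝ) :
    ∑ r, ν r * (a0 + ∑ q, a q * Yl p (s r) q) = 0 := by
  have h : ∀ r, ν r * (a0 + ∑ q, a q * Yl p (s r) q) = a0 * ν r + ∑ q, a q * (ν r * Yl p (s r) q) := by
    intro r
    rw [mul_add, Finset.mul_sum]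
    congr 1
    · ring
    · exact Finset.sum_congr rfl fun q _ => by ring
  simp only [h]
  rw [Finset.sum_add_distrib, ← Finset.mul_sum, h0, Finset.sum_comm]
  simp only [← Finset.mul_sum, h1]
  simp

theorem UNQ (hINT : INT_stmt) (hLVL : LVL_stmt) : UNQ_stmt := by
  intro p s hs hl ν h0 h1
  obtain ⟨m0, m1⟩ := hLVL p s hs
  have m1 := m1 hl
  have hmu : mu p s (Fin.last (p + 1)) ≠ 0 := by
    unfold mu
    refine div_ne_zero (hl _) (Finset.prod_ne_zero_iff.mpr fun r' hr' => ?_)
    intro he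
    exact (Finset.ne_of_mem_erase hr') (hs (sub_eq_zero.mp he)).symm
  refine ⟨ν (Fin.last (p + 1)) / mu p s (Fin.last (p + 1)), fun r => ?_⟩
  refine Fin.lastCases ?_ (fun i => ?_) r
  · field_simp
  · obtain ⟨a0, a, ha⟩ := hINT p (s ∘ Fin.castSucc) (hs.comp (Fin.castSucc_injective _))
      (fun r => hl _) (fun j => if j = i then 1 else 0)
    have key : ∀ κ : Fin (p + 2) → ℝ, ∑ r, κ r = 0 → (∀ q : Fin p, ∑ r, κ r * Yl p (s r) q = 0) →
        κ i.castSucc = -(κ (Fin.last (p + 1)) * (a0 + ∑ q, a q * Yl p (s (Fin.last (p + 1))) q)) := by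
      intro κ k0 k1
      have hc := UNQ_comb p s κ k0 k1 a0 a
      rw [Fin.sum_univ_castSucc] at hc
      have h2 : ∑ j : Fin (p + 1), κ j.castSucc * (a0 + ∑ q, a q * Yl p (s j.castSucc) q) = κ i.castSucc := by
        rw [Finset.sum_eq_single i]
        · have := ha i
          simp only [Function.comp] at this
          rw [this]; simp
        · intro j _ hj
          have := ha j
          simp only [Function.comp] at this
          rw [this]; simp [hj]
        · intro h; exact absurd (Finset.mem_univ _) h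
      rw [h2] at hc
      linarith
    rw [key ν h0 h1, key (mu p s) m0 m1]
    field_simp

end Pool.Agent.GF
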